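import Pool.Agent.helper70.D2.BAS
import Pool.Agent.helper40.D2.BOX
import Pool.Agent.helper71.D2.BSQ
import Pool.Agent.helper50.D2.BXA
import Pool.Agent.helper52.D2.CMP
import Pool.Agent.helper57.D2.DIF
import Pool.Agent.helper98.D2.GGB
import Pool.Agent.helper66.D2.GLU
import Pool.Agent.helper24.D2.GST
import Pool.Agent.helper55.D2.KRS
import Pool.Agent.helper90.D2.MKL
import Pool.Agent.helper62.D2.MLA
import Pool.Agent.helper29.D2.NCB
import Pool.Agent.helper76.D2.NR1
import Pool.Agent.helper26.D2.NR2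
import Pool.Agent.helper63.D2.NR3
import Pool.Agent.helper29.D2.PLC
import Pool.Agent.helper23.D2.PUN
import Pool.Agent.helper61.D2.RAT
import Pool.Agent.helper46.D2.RC1
import Pool.Agent.helper91.D2.RC2
import Pool.Agent.helper30.D2.RG1
import Pool.Agent.helper11.D2.RI1
import Pool.Agent.helper72.D2.RI2
import Pool.Agent.helper77.D2.RI3
import Pool.Agent.helper20.D2.RI4
import Pool.Agent.helper85.D2.RLI
import Pool.Agent.helper99.D2.RNU
import Pool.Agent.helper91.D2.SLQ
import Pool.Agent.helper33.D2.SM2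
import Pool.Agent.helper78.D2.SMA
import Pool.Agent.helper72.D2.STP
import Pool.Agent.helper13.D2.SZC
import Pool.Agent.helper65.D2.TTT
import Pool.Agent.helper15.D2.ADM
import Pool.Agent.helper76.D2.BLK
import Pool.Agent.helper67.D2.CHA
import Pool.Agent.helper62.D2.CHT
import Pool.Agent.helper57.D2.GDB
import Pool.Agent.helper30.D2.KSG
import Pool.Agent.helper62.D2.LW1
import Pool.Agent.helper41.D2.LW2
import Pool.Agent.helper16.D2.PAS
import Pool.Agent.helper8.D2.PIE
import Pool.Agent.helper63.D2.PRD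
import Pool.Agent.helper70.D2.RAV
import Pool.Agent.helper19.D2.RPA
import Pool.Agent.helper85.D2.RSL
import Pool.Agent.helper78.D2.RST
import Pool.Agent.helper20.D2.SM1
import Pool.Agent.helper77.D2.APP
import Pool.Agent.helper40.D2.FRG
import Pool.Agent.helper73.D2.KTH
import Pool.Agent.helper97.D2.LOW
import Pool.Agent.helper92.D2.NR4
import Pool.Agent.helper81.D2.RCH
import Pool.Agent.helper51.D2.RPF
import Pool.Agent.helper81.D2.THA
import Pool.Agent.helper21.D2.HST
import Pool.Agent.helper28.D2.HTH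
import Pool.Agent.helper31.D2.LPK
import Pool.Agent.helper46.D2.THB
import Pool.Agent.helper19.D2.COR
import Pool.Agent.helper21.D2.COM
import Pool.Agent.helper71.D2.FIN

/-!
# Project dc: (MP_5823cb_al): assembly of all modules, `RES_stmt`
-/

set_option autoImplicit false

open Filter Topology
open scoped commutatorElement

namespace Pool.Agent.helper64.D2

/-- Every element of the group with the modulus condition lies in the commutator subgroup and in the normal closure of every element which is not an integer translation. -/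
theorem res_all : RES_stmt := by
  have hBAS : BAS_stmt := BAS
  have hBOX : BOX_stmt := BOX
  have hBSQ : BSQ_stmt := BSQ
  have hBXA : BXA_stmt := BXA hBOX
  have hCMP : CMP_stmt := CMP hBAS
  have hDIF : DIF_stmt := DIF
  have hGGB : GGB_stmt := GGB
  have hGLU : GLU_stmt := GLU
  have hGST : GST_stmt := GST
  have hKRS : KRS_stmt := KRS
  have hMKL : MKL_stmt := MKL
  have hMLA : MLA_stmt := MLA
  have hNCB : NCB_stmt := NCB hGGB
  have hNR1 : NR1_stmt := NR1 hNCB hGGB
  have hNR2 : NR2_stmt := NR2 hGGB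
  have hNR3 : NR3_stmt := NR3 hMKL
  have hPLC : PLC_stmt := PLC
  have hPUN : PUN_stmt := PUN
  have hRAT : RAT_stmt := RAT hBAS
  have hRC1 : RC1_stmt := RC1
  have hRC2 : RC2_stmt := RC2
  have hRG1 : RG1_stmt := RG1
  have hRI1 : RI1_stmt := RI1 hRG1
  have hRI2 : RI2_stmt := RI2 hRG1 hRI1
  have hRI3 : RI3_stmt := RI3 hRG1
  have hRI4 : RI4_stmt := RI4 hRI2 hRI3 hRC1
  have hRLI : RLI_stmt := RLI
  have hRNU : RNU_stmt := RNU
  have hSLQ : SLQ_stmt := SLQ hBSQ
  have hSM2 : SM2_stmt := SM2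
  have hSMA : SMA_stmt := SMA hDIF
  have hSTP : STP_stmt := STP
  have hSZC : SZC_stmt := SZC
  have hTTT : TTT_stmt := TTT hSM2
  have hADM : ADM_stmt := ADM hSZC
  have hBLK : BLK_stmt := BLK hBAS hDIF hBOX hBXA hRAT hSZC
  have hCHA : CHA_stmt := CHA hBAS hMLA
  have hCHT : CHT_stmt := CHT hGGB hCHA hDIF hBAS
  have hGDB : GDB_stmt := GDB hGGB
  have hKSG : KSG_stmt := KSG hADM
  have hLW1 : LW1_stmt := LW1 hSMA hDIF hBAS hSZC
  have hLW2 : LW2_stmt := LW2 hSMA hDIF hBAS hSZC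
  have hPAS : PAS_stmt := PAS hSTP hGST hSMA hDIF hSZC
  have hPIE : PIE_stmt := PIE hGGB hGDB hMLA
  have hPRD : PRD_stmt := PRD hSZC
  have hRAV : RAV_stmt := RAV hRC1 hRI2 hRI3 hRI4
  have hRPA : RPA_stmt := RPA hSTP hGST hSMA hDIF hSZC
  have hRSL : RSL_stmt := RSL hPLC hPRD hKRS hSZC
  have hRST : RST_stmt := RST hRG1 hRC2 hRAV hRPA
  have hSM1 : SM1_stmt := SM1 hSZC
  have hAPP : APP_stmt := APP hPAS
  have hFRG : FRG_stmt := FRG hGGB hMKL hGDB hMLA hPIE hPUN
  have hKTH : KTH_stmt := KTH hADM hSM1 hSM2 hTTT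
  have hLOW : LOW_stmt := LOW hLW1 hLW2 hBAS
  have hNR4 : NR4_stmt := NR4 hNR1 hNR2 hNR3 hNCB hFRG hGGB
  have hRCH : RCH_stmt := RCH hRST hRNU hSZC hRC2
  have hRPF : RPF_stmt := RPF hRCH hRLI hRNU
  have hTHA : THA_stmt := THA hBLK hRPF hBSQ hSLQ hGLU hPLC hSZC
  have hHST : HST_stmt := HST hCMP hAPP hBOX hLOW hRAT hSZC
  have hHTH : HTH_stmt := HTH hHST hBSQ hGLU hPLC hADM hKRS hSZC
  have hLPK : LPK_stmt := LPK hHTH hBSQ hRAT hDIF hKSG hPLC hBAS
  have hTHB : THB_stmt := THB hTHA hHTH hRSL hLPK hKRS hKSG hBSQ hSLQ hPLC hADM hSZC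
  have hCOR : COR_stmt := COR hTHB hKTH hBSQ
  have hCOM : COM_stmt := COM hCOR hFRG hCHT hGGB hMLA
  have hFIN : FIN_stmt := FIN hCOM hNR4
  exact hFIN

end Pool.Agent.helper64.D2
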